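import Mathlib

/-!
# One-dimensional sums

Project NE (helper554), part SUMB; proved by helper434.
-/

set_option autoImplicit false

namespace Pool.Agent.Y434.NE

open Finset

theorem sum_pow (M : ℕ) : ∑ m ∈ range M, ((m : ℝ) + 1) ^ (-(11 / 24) : ℝ) ≤
    2 * (M : ℝ) ^ (13 / 24 : ℝ) := by
  induction M with
  | zero => simp
  | succ M ih =>
    rw [sum_range_succ]
    push_cast
    set x : ℝ := (M : ℝ) + 1 with hx
    have hx1 : 1 ≤ x := by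
      have : (0 : ℝ) ≤ M := Nat.cast_nonneg M
      linarith
    have hx0 : 0 < x := by linarith
    have h1 : (M : ℝ) = x * (1 + (-(1 / x))) := by
      rw [hx]
      field_simp
      ring
    have h2 : (M : ℝ) ^ (13 / 24 : ℝ) ≤ x ^ (13 / 24 : ℝ) * (1 + (13 / 24) * (-(1 / x))) := by
      have h3 : -1 ≤ -(1 / x) := by
        rw [neg_le_neg_iff, div_le_one hx0]
        exact hx1
      rw [h1, Real.mul_rpow hx0.le (by linarith)]
      exact mul_le_mul_of_nonneg_left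
        (rpow_one_add_le_one_add_mul_self h3 (by norm_num) (by norm_num)) (by positivity)
    have h4 : x ^ (-(11 / 24) : ℝ) = x ^ (13 / 24 : ℝ) * (1 / x) := by
      rw [one_div x, ← Real.rpow_neg_one x, ← Real.rpow_add hx0]
      norm_num
    rw [h4]
    have h5 : 0 ≤ x ^ (13 / 24 : ℝ) * (1 / x) := by positivity
    nlinarith

/-- truncated distance -/
def Y (n m : ℕ) (a : ℤ) : ℕ := min m (max 1 (n - |a|).toNat)

theorem Y_pos {n m : ℕ} (hm : 1 ≤ m) (a : ℤ) : 0 < Y n m a := by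
  unfold Y
  omega

theorem sum_max (m : ℕ) (hm : 1 ≤ m) :
    ∑ d ∈ range m, (max 1 (d : ℝ)) ^ (-(11 / 24) : ℝ) ≤ 3 * (m : ℝ) ^ (13 / 24 : ℝ) := by
  obtain ⟨M, rfl⟩ : ∃ M, m = M + 1 := ⟨m - 1, by omega⟩
  rw [sum_range_succ']
  have h1 : ∀ k : ℕ, (max 1 ((k + 1 : ℕ) : ℝ)) ^ (-(11 / 24) : ℝ) =
      ((k : ℝ) + 1) ^ (-(11 / 24) : ℝ) := by
    intro k
    rw [max_eq_right (by push_cast; have : (0 : ℝ) ≤ k := Nat.cast_nonneg k; linarith)]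
    push_cast
    rfl
  simp only [h1]
  have h2 := sum_pow M
  have h3 : (M : ℝ) ^ (13 / 24 : ℝ) ≤ ((M + 1 : ℕ) : ℝ) ^ (13 / 24 : ℝ) :=
    Real.rpow_le_rpow (Nat.cast_nonneg _) (by push_cast; linarith) (by norm_num)
  have h4 : (1 : ℝ) ≤ ((M + 1 : ℕ) : ℝ) ^ (13 / 24 : ℝ) := by
    apply Real.one_le_rpow _ (by norm_num)
    push_cast
    have : (0 : ℝ) ≤ M := Nat.cast_nonneg M
    linarith
  have h5 : (max 1 ((0 : ℕ) : ℝ)) ^ (-(11 / 24) : ℝ) = 1 := by simp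
  rw [h5]
  linarith

/-- the points near the boundary, on one side -/
theorem side {n m : ℕ} (hm : 1 ≤ m) (A : Finset ℤ)
    (hA : ∀ a ∈ A, |a| ≤ n ∧ (n : ℤ) - |a| < m)
    (hs : (∀ a ∈ A, 0 ≤ a) ∨ ∀ a ∈ A, a < 0) :
    ∑ a ∈ A, (Y n m a : ℝ) ^ (-(11 / 24) : ℝ) ≤ 3 * (m : ℝ) ^ (13 / 24 : ℝ) := by
  classical
  let f : ℤ → ℕ := fun a => ((n : ℤ) - |a|).toNat
  have hf : Set.InjOn f A := by
    intro a ha b hb hab
    obtain ⟨ha1, -⟩ := hA a ha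
    obtain ⟨hb1, -⟩ := hA b hb
    have hab' : ((n : ℤ) - |a|).toNat = ((n : ℤ) - |b|).toNat := hab
    have h1 : |a| = |b| := by omega
    rcases hs with hs | hs
    · have h2 := hs a ha
      have h3 := hs b hb
      rwa [abs_of_nonneg h2, abs_of_nonneg h3] at h1
    · have h2 := hs a ha
      have h3 := hs b hb
      rw [abs_of_neg h2, abs_of_neg h3] at h1
      linarith
  have hval : ∀ a ∈ A, (Y n m a : ℝ) ^ (-(11 / 24) : ℝ) ≤
      (max 1 (f a : ℝ)) ^ (-(11 / 24) : ℝ) := by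
    intro a ha
    obtain ⟨ha1, ha2⟩ := hA a ha
    have h1 : max 1 (f a : ℝ) = (Y n m a : ℝ) := by
      have : Y n m a = max 1 (f a) := by
        show min m (max 1 (n - |a|).toNat) = max 1 ((n : ℤ) - |a|).toNat
        omega
      rw [this]
      push_cast
      rfl
    rw [h1]
  calc ∑ a ∈ A, (Y n m a : ℝ) ^ (-(11 / 24) : ℝ) ≤
      ∑ a ∈ A, (max 1 (f a : ℝ)) ^ (-(11 / 24) : ℝ) := sum_le_sum hval
    _ = ∑ d ∈ A.image f, (max 1 (d : ℝ)) ^ (-(11 / 24) : ℝ) := by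
        rw [sum_image (f := fun d : ℕ => (max 1 (d : ℝ)) ^ (-(11 / 24) : ℝ)) hf]
    _ ≤ ∑ d ∈ range m, (max 1 (d : ℝ)) ^ (-(11 / 24) : ℝ) := by
        refine sum_le_sum_of_subset_of_nonneg ?_ fun _ _ _ => by positivity
        intro d hd
        obtain ⟨a, ha, rfl⟩ := mem_image.1 hd
        obtain ⟨ha1, ha2⟩ := hA a ha
        rw [mem_range]
        show ((n : ℤ) - |a|).toNat < m
        omega
    _ ≤ 3 * (m : ℝ) ^ (13 / 24 : ℝ) := sum_max m hm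

/-- the one-dimensional sum -/
theorem line {n m : ℕ} (hm : 1 ≤ m) (hmn : m ≤ n) :
    ∑ a ∈ Icc (-(n : ℤ)) n, (Y n m a : ℝ) ^ (-(11 / 24) : ℝ) ≤
      9 * (n * (m : ℝ) ^ (-(11 / 24) : ℝ)) := by
  classical
  have hm0 : (0 : ℝ) < m := by exact_mod_cast hm
  have hmn' : (m : ℝ) ≤ n := by exact_mod_cast hmn
  have hn1 : (1 : ℝ) ≤ n := by
    have : (1 : ℝ) ≤ m := by exact_mod_cast hm
    linarith
  rw [← sum_filter_add_sum_filter_not (Icc (-(n : ℤ)) n) fun a => (m : ℤ) ≤ (n : ℤ) - |a|,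
    ← sum_filter_add_sum_filter_not ((Icc (-(n : ℤ)) n).filter
      fun a => ¬ (m : ℤ) ≤ (n : ℤ) - |a|) fun a => 0 ≤ a]
  have hK : 0 ≤ (m : ℝ) ^ (-(11 / 24) : ℝ) := by positivity
  have h1 : ∑ a ∈ (Icc (-(n : ℤ)) n).filter (fun a => (m : ℤ) ≤ (n : ℤ) - |a|),
      (Y n m a : ℝ) ^ (-(11 / 24) : ℝ) ≤ 3 * (n * (m : ℝ) ^ (-(11 / 24) : ℝ)) := by
    have h2 : ∀ a ∈ (Icc (-(n : ℤ)) n).filter (fun a => (m : ℤ) ≤ (n : ℤ) - |a|),
        (Y n m a : ℝ) ^ (-(11 / 24) : ℝ) = (m : ℝ) ^ (-(11 / 24) : ℝ) := by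
      intro a ha
      have h3 := (mem_filter.1 ha).2
      have h4 : Y n m a = m := by
        unfold Y
        omega
      rw [h4]
    rw [sum_congr rfl h2, sum_const, nsmul_eq_mul]
    have h5 : ((Icc (-(n : ℤ)) n).filter (fun a => (m : ℤ) ≤ (n : ℤ) - |a|)).card ≤ 2 * n + 1 := by
      refine (card_filter_le _ _).trans ?_
      rw [Int.card_Icc]
      omega
    have h6 : (((Icc (-(n : ℤ)) n).filter (fun a => (m : ℤ) ≤ (n : ℤ) - |a|)).card : ℝ) ≤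
        3 * n := by
      have : (((Icc (-(n : ℤ)) n).filter (fun a => (m : ℤ) ≤ (n : ℤ) - |a|)).card : ℝ) ≤
          ((2 * n + 1 : ℕ) : ℝ) := by exact_mod_cast h5
      push_cast at this
      linarith
    calc _ ≤ (3 * (n : ℝ)) * (m : ℝ) ^ (-(11 / 24) : ℝ) := mul_le_mul_of_nonneg_right h6 hK
      _ = _ := by ring
  have h7 : (m : ℝ) ^ (13 / 24 : ℝ) ≤ n * (m : ℝ) ^ (-(11 / 24) : ℝ) := by
    have h8 : (m : ℝ) ^ (13 / 24 : ℝ) = m * (m : ℝ) ^ (-(11 / 24) : ℝ) := by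
      nth_rewrite 2 [← Real.rpow_one (m : ℝ)]
      rw [← Real.rpow_add hm0]
      norm_num
    rw [h8]
    exact mul_le_mul_of_nonneg_right hmn' hK
  have h2 := side (n := n) (m := m) hm (((Icc (-(n : ℤ)) n).filter
      fun a => ¬ (m : ℤ) ≤ (n : ℤ) - |a|).filter fun a => 0 ≤ a) (fun a ha => by
      have h3 := mem_filter.1 (mem_filter.1 ha).1
      have h4 := mem_Icc.1 h3.1
      exact ⟨abs_le.2 h4, not_le.1 h3.2⟩) (Or.inl fun a ha => (mem_filter.1 ha).2)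
  have h3 := side (n := n) (m := m) hm (((Icc (-(n : ℤ)) n).filter
      fun a => ¬ (m : ℤ) ≤ (n : ℤ) - |a|).filter fun a => ¬ 0 ≤ a) (fun a ha => by
      have h3 := mem_filter.1 (mem_filter.1 ha).1
      have h4 := mem_Icc.1 h3.1
      exact ⟨abs_le.2 h4, not_le.1 h3.2⟩) (Or.inr fun a ha => not_le.1 (mem_filter.1 ha).2)
  linarith

/-- the sum over the square, two terms for every position -/
theorem square {n m : ℕ} (hm : 1 ≤ m) (hmn : m ≤ n) :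
    ∑ e ∈ Icc (-(n : ℤ)) n ×ˢ (Icc (-(n : ℤ)) n ×ˢ (univ : Finset Bool)),
      (m : ℝ) ^ (-(1 / 3) : ℝ) * ((Y n m e.1 : ℝ) ^ (-(11 / 24) : ℝ) *
        (Y n m e.2.1 : ℝ) ^ (-(11 / 24) : ℝ)) ≤
      162 * ((n : ℝ) ^ 2 * (m : ℝ) ^ (-(5 / 4) : ℝ)) := by
  have hm0 : (0 : ℝ) < m := by exact_mod_cast hm
  rw [sum_product]
  simp only [sum_product, sum_const, card_univ, Fintype.card_bool, nsmul_eq_mul, Nat.cast_ofNat]
  have hL := line hm hmn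
  set S : ℝ := ∑ a ∈ Icc (-(n : ℤ)) n, (Y n m a : ℝ) ^ (-(11 / 24) : ℝ) with hS
  have hS0 : 0 ≤ S := sum_nonneg fun _ _ => by positivity
  have e1 : ∑ a ∈ Icc (-(n : ℤ)) n, ∑ b ∈ Icc (-(n : ℤ)) n,
      2 * ((m : ℝ) ^ (-(1 / 3) : ℝ) * ((Y n m a : ℝ) ^ (-(11 / 24) : ℝ) *
        (Y n m b : ℝ) ^ (-(11 / 24) : ℝ))) = 2 * (m : ℝ) ^ (-(1 / 3) : ℝ) * (S * S) := by
    rw [hS, sum_mul_sum, mul_sum]
    apply sum_congr rfl
    intro a _
    rw [mul_sum]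
    apply sum_congr rfl
    intro b _
    ring
  rw [e1]
  have h1 : S * S ≤ (9 * (n * (m : ℝ) ^ (-(11 / 24) : ℝ))) * (9 * (n * (m : ℝ) ^ (-(11 / 24) : ℝ))) :=
    mul_le_mul hL hL hS0 (by positivity)
  calc 2 * (m : ℝ) ^ (-(1 / 3) : ℝ) * (S * S) ≤ 2 * (m : ℝ) ^ (-(1 / 3) : ℝ) *
        ((9 * (n * (m : ℝ) ^ (-(11 / 24) : ℝ))) * (9 * (n * (m : ℝ) ^ (-(11 / 24) : ℝ)))) :=
        mul_le_mul_of_nonneg_left h1 (by positivity)
    _ = 162 * ((n : ℝ) ^ 2 * ((m : ℝ) ^ (-(1 / 3) : ℝ) * (m : ℝ) ^ (-(11 / 24) : ℝ) *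
          (m : ℝ) ^ (-(11 / 24) : ℝ))) := by ring
    _ = 162 * ((n : ℝ) ^ 2 * (m : ℝ) ^ (-(5 / 4) : ℝ)) := by
        rw [← Real.rpow_add hm0, ← Real.rpow_add hm0]
        norm_num

end Pool.Agent.Y434.NE
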