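import Pool.Agent.Y5.E.Stm

/-!
Choice of the scales `K n = K₀ * R ^ n`, `lam = R ^ (5/2)`, `γ = exp (-(3/100) * lam)`
(statement `S_SEQ2` of `Pool.Agent.Y5.E.Stm`).
-/

open Set Filter Topology

set_option autoImplicit false

namespace Pool.Agent.Y434.NE

open Pool.Agent.Y5.E

theorem ev_exp (c : ℝ) (k : ℕ) {b : ℝ} (hb : 0 < b) :
    ∀ᶠ R : ℕ in atTop, c * (R : ℝ) ^ k ≤ Real.exp (b * R) := by
  have h := (isLittleO_pow_exp_pos_mul_atTop k hb).def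
    (show (0 : ℝ) < 1 / (|c| + 1) by positivity)
  have h2 := (tendsto_natCast_atTop_atTop (R := ℝ)).eventually h
  filter_upwards [h2] with R hR
  rw [Real.norm_of_nonneg (by positivity), Real.norm_of_nonneg (by positivity)] at hR
  have h3 : |c| * (R : ℝ) ^ k ≤ |c| * (1 / (|c| + 1) * Real.exp (b * R)) :=
    mul_le_mul_of_nonneg_left hR (abs_nonneg c)
  have h4 : |c| * (1 / (|c| + 1)) ≤ 1 := by
    rw [mul_one_div, div_le_one (by positivity)]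
    linarith
  calc c * (R : ℝ) ^ k ≤ |c| * (R : ℝ) ^ k :=
        mul_le_mul_of_nonneg_right (le_abs_self c) (by positivity)
    _ ≤ |c| * (1 / (|c| + 1)) * Real.exp (b * R) := by rw [mul_assoc]; exact h3
    _ ≤ 1 * Real.exp (b * R) := mul_le_mul_of_nonneg_right h4 (Real.exp_pos _).le
    _ = Real.exp (b * R) := one_mul _

/-- `x ^ 2 * √x = x ^ (5/2)` -/
theorem sq_sqrt_eq {x : ℝ} (hx : 0 < x) : x ^ 2 * √x = x ^ (5 / 2 : ℝ) := by
  rw [Real.sqrt_eq_rpow, ← Real.rpow_natCast x 2, ← Real.rpow_add hx]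
  norm_num

theorem t_SEQ2 : S_SEQ2 := by
  intro ν α β D p K₁ hν hα hα' hβ hD hK₁
  have hδ : 0 < 5 / 2 - 2 * α := by linarith
  have hδ1 : Tendsto (fun R : ℕ => (R : ℝ) ^ (5 / 2 - 2 * α)) atTop atTop :=
    (tendsto_rpow_atTop hδ).comp tendsto_natCast_atTop_atTop
  -- choice of `R`
  obtain ⟨R, hR1, hR2, hR3, hR4, hR5, hR6, hR7⟩ := (((eventually_ge_atTop K₁).and
    ((eventually_ge_atTop (10 ^ 12)).and
    ((ev_exp 1 p (b := 1 / 10000) (by norm_num)).and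
    ((ev_exp (2 * ν * 729 / β) 3 (b := 1) (by norm_num)).and
    ((ev_exp (1 / D) 2 (b := 1 / 1000) (by norm_num)).and
    ((ev_exp ((10 ^ 6 * (1 + 100 / β) ^ 4) ^ 10) 120 (b := 1 / 10 ^ 6) (by norm_num)).and
    (hδ1.eventually_ge_atTop (1000 / 9)))))))).exists)
  have hRr : (10 : ℝ) ^ 12 ≤ R := by exact_mod_cast hR2
  have hR0 : (0 : ℝ) < R := by linarith [show (0 : ℝ) < 10 ^ 12 by norm_num]
  have hR1' : (1 : ℝ) ≤ R := by linarith [show (1 : ℝ) ≤ 10 ^ 12 by norm_num]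
  set lam : ℝ := (R : ℝ) ^ 2 * √(R : ℝ) with hlam
  have hsq1 : 1 ≤ √(R : ℝ) := by rw [Real.one_le_sqrt]; exact hR1'
  have hlamR : (R : ℝ) ≤ lam := by
    have : (R : ℝ) * 1 ≤ (R : ℝ) ^ 2 * √(R : ℝ) :=
      mul_le_mul (by nlinarith) hsq1 zero_le_one (by positivity)
    linarith
  have hlam0 : 0 < lam := by linarith
  have hlame : lam = (R : ℝ) ^ (5 / 2 : ℝ) := sq_sqrt_eq hR0
  have hexp : ∀ b : ℝ, 0 ≤ b → Real.exp (b * R) ≤ Real.exp (b * lam) := fun b hb =>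
    Real.exp_le_exp.2 (mul_le_mul_of_nonneg_left hlamR hb)
  -- the constant
  set Q : ℝ := 8 * (ν * (2 * Real.pi) ^ (2 * α)) with hQ
  have hpi : 0 < (2 * Real.pi) ^ (2 * α) := Real.rpow_pos_of_pos (by positivity) _
  have hQ0 : 0 < Q := by positivity
  -- choice of `K₀`
  obtain ⟨N, hN⟩ := eventually_atTop.1 ((eventually_ge_atTop K₁).and
    ((eventually_ge_atTop (10 ^ 6)).and
    (((tendsto_natCast_atTop_atTop (R := ℝ)).eventually_ge_atTop (1 / D)).and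
    (((tendsto_natCast_atTop_atTop (R := ℝ)).eventually_ge_atTop (1 / β)).and
    (hδ1.eventually_ge_atTop (10 ^ 6 * Q * lam / β))))))
  obtain ⟨hK1, hK2, hK3, hK4, hK5⟩ := hN (20 * N) (by omega)
  set K₀ : ℕ := 20 * N with hK₀
  have hKr : (10 : ℝ) ^ 6 ≤ K₀ := by exact_mod_cast hK2
  have hK0 : (0 : ℝ) < K₀ := by linarith [show (0 : ℝ) < 10 ^ 6 by norm_num]
  have hK1' : (1 : ℝ) ≤ K₀ := by linarith [show (1 : ℝ) ≤ 10 ^ 6 by norm_num]
  have hsK : 1 ≤ √(K₀ : ℝ) := by rw [Real.one_le_sqrt]; exact hK1'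
  have hRn : ∀ n : ℕ, (1 : ℝ) ≤ (R : ℝ) ^ n := fun n => one_le_pow₀ hR1'
  have hKRn : ∀ n : ℕ, (1 : ℝ) ≤ (K₀ : ℝ) * (R : ℝ) ^ n := fun n => by
    nlinarith [hRn n]
  have hRp : (R : ℝ) ^ p ≤ Real.exp (1 / 10000 * lam) := by
    have := hR3.trans (hexp (1 / 10000) (by norm_num))
    linarith
  have hRp0 : (0 : ℝ) < (R : ℝ) ^ p := by positivity
  refine ⟨K₀, R, lam, Real.exp (-(3 / 100 * lam)),
    fun n => Q * ((K₀ : ℝ) * R ^ n) ^ (2 * α), hK1, ⟨N, rfl⟩, hK2, hR1, hR2, rfl,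
    Real.exp_pos _, ?_, ?_, ?_, ?_, ?_, ?_⟩
  · -- γ R^p ≤ 1
    calc Real.exp (-(3 / 100 * lam)) * (R : ℝ) ^ p
        ≤ Real.exp (-(3 / 100 * lam)) * Real.exp (1 / 10000 * lam) :=
          mul_le_mul_of_nonneg_left hRp (Real.exp_pos _).le
      _ = Real.exp (-(3 / 100 * lam) + 1 / 10000 * lam) := (Real.exp_add _ _).symm
      _ ≤ 1 := by
          rw [Real.exp_le_one_iff]
          linarith
  · intro n
    rw [hQ]
    apply le_of_eq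
    ring
  · intro n
    set x : ℝ := (K₀ : ℝ) * R ^ n with hx
    have hx1 : 1 ≤ x := hKRn n
    have hx0 : 0 < x := by linarith
    have e1 : 2 * Real.pi * (13 / 10 * ((K₀ : ℝ) * R ^ (n + 1)))
        = (2 * Real.pi * (13 / 10) * R) * x := by rw [hx, pow_succ]; ring
    rw [e1, Real.mul_rpow (by positivity) hx0.le, sq_sqrt_eq hx0]
    have h1 : x ^ (2 * α) ≤ x ^ (5 / 2 : ℝ) :=
      Real.rpow_le_rpow_of_exponent_le hx1 (by linarith)
    have h2 : (2 * Real.pi * (13 / 10) * (R : ℝ)) ≤ 9 * R := by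
      have := Real.pi_lt_d2
      have h3 : 2 * Real.pi * (13 / 10) ≤ 9 := by linarith
      exact mul_le_mul_of_nonneg_right h3 hR0.le
    have h3 : (2 * Real.pi * (13 / 10) * (R : ℝ)) ^ (2 * α) ≤ (9 * (R : ℝ)) ^ (3 : ℝ) := by
      calc (2 * Real.pi * (13 / 10) * (R : ℝ)) ^ (2 * α) ≤ (9 * (R : ℝ)) ^ (2 * α) :=
            Real.rpow_le_rpow (by positivity) h2 (by linarith)
        _ ≤ (9 * (R : ℝ)) ^ (3 : ℝ) :=
            Real.rpow_le_rpow_of_exponent_le (by linarith) (by linarith)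
    have h4 : (9 * (R : ℝ)) ^ (3 : ℝ) = 729 * (R : ℝ) ^ 3 := by
      rw [show (3 : ℝ) = ((3 : ℕ) : ℝ) by norm_num, Real.rpow_natCast]
      ring
    rw [h4] at h3
    have h5 : 2 * ν * 729 * (R : ℝ) ^ 3 ≤ Real.exp lam * β := by
      have h6 : 2 * ν * 729 / β * (R : ℝ) ^ 3 ≤ Real.exp lam := by
        have := hR4.trans (hexp 1 (by norm_num))
        rwa [one_mul] at this
      calc 2 * ν * 729 * (R : ℝ) ^ 3 = (2 * ν * 729 / β * (R : ℝ) ^ 3) * β := by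
            field_simp
        _ ≤ Real.exp lam * β := mul_le_mul_of_nonneg_right h6 hβ.le
    have hxa : 0 ≤ x ^ (2 * α) := (Real.rpow_pos_of_pos hx0 _).le
    have hxb : 0 ≤ x ^ (5 / 2 : ℝ) := (Real.rpow_pos_of_pos hx0 _).le
    calc 2 * (ν * ((2 * Real.pi * (13 / 10) * (R : ℝ)) ^ (2 * α) * x ^ (2 * α)))
        ≤ 2 * (ν * ((729 * (R : ℝ) ^ 3) * x ^ (5 / 2 : ℝ))) := by
          gcongr
      _ = 2 * ν * 729 * (R : ℝ) ^ 3 * x ^ (5 / 2 : ℝ) := by ring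
      _ ≤ Real.exp lam * β * x ^ (5 / 2 : ℝ) := mul_le_mul_of_nonneg_right h5 hxb
      _ = Real.exp lam * (β * x ^ (5 / 2 : ℝ)) := by ring
  · -- D K₀ √K₀
    have h1 : 1 ≤ D * (K₀ : ℝ) := by
      rw [div_le_iff₀ hD] at hK3
      linarith
    nlinarith [mul_pos hD hK0]
  · -- R √R ≤ exp D
    have h1 : 1 / D * (R : ℝ) ^ 2 ≤ Real.exp (lam / 1000) := by
      have := hR5.trans (hexp (1 / 1000) (by norm_num))
      rwa [show 1 / 1000 * lam = lam / 1000 by ring] at this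
    have h2 : √(R : ℝ) ≤ R := by
      have h3 := Real.sq_sqrt hR0.le
      nlinarith
    calc (R : ℝ) * √(R : ℝ) ≤ R * R := mul_le_mul_of_nonneg_left h2 hR0.le
      _ = (1 / D * (R : ℝ) ^ 2) * D := by field_simp
      _ ≤ Real.exp (lam / 1000) * D := mul_le_mul_of_nonneg_right h1 hD.le
  · intro C B hC1 hC2 hB1 hB2
    have hLn : ∀ n : ℕ, ((K₀ : ℝ) * R ^ n) ^ 2 * √((K₀ : ℝ) * R ^ n)
        = ((K₀ : ℝ) * R ^ n) ^ (5 / 2 : ℝ) := fun n =>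
      sq_sqrt_eq (by linarith [hKRn n])
    have hkey : 10 ^ 6 * Q * lam ≤ β * (K₀ : ℝ) ^ (5 / 2 - 2 * α) := by
      rw [div_le_iff₀ hβ] at hK5
      linarith
    refine ⟨?_, ?_, ?_, ?_, ?_, ?_, ?_, ?_, ?_, hB1, hB2, ?_, ?_, ?_, ?_⟩
    · -- 10^30 ≤ lam
      have h1 : (10 : ℝ) ^ 6 ≤ √(R : ℝ) := by
        apply Real.le_sqrt_of_sq_le
        have h2 : ((10 : ℝ) ^ 6) ^ 2 = 10 ^ 12 := by norm_num
        rw [h2]
        exact hRr
      calc (10 : ℝ) ^ 30 = ((10 : ℝ) ^ 12) ^ 2 * 10 ^ 6 := by norm_num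
        _ ≤ (R : ℝ) ^ 2 * √(R : ℝ) := by gcongr
    · -- 1 ≤ L 0
      show 1 ≤ β * (((K₀ : ℝ) * R ^ 0) ^ 2 * √((K₀ : ℝ) * R ^ 0))
      rw [pow_zero, mul_one]
      have h1 : 1 ≤ β * (K₀ : ℝ) := by
        rw [div_le_iff₀ hβ] at hK4
        linarith
      have h2 : (K₀ : ℝ) ≤ (K₀ : ℝ) ^ 2 * √(K₀ : ℝ) := by
        have : (K₀ : ℝ) * 1 ≤ (K₀ : ℝ) ^ 2 * √(K₀ : ℝ) :=
          mul_le_mul (by nlinarith) hsK zero_le_one (by positivity)
        linarith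
      nlinarith [mul_le_mul_of_nonneg_left h2 hβ.le]
    · -- L (n+1) = lam * L n
      intro n
      show β * (((K₀ : ℝ) * R ^ (n + 1)) ^ 2 * √((K₀ : ℝ) * R ^ (n + 1)))
        = lam * (β * (((K₀ : ℝ) * R ^ n) ^ 2 * √((K₀ : ℝ) * R ^ n)))
      have h1 : (K₀ : ℝ) * R ^ (n + 1) = R * ((K₀ : ℝ) * R ^ n) := by ring
      rw [h1, Real.sqrt_mul hR0.le, hlam]
      ring
    · linarith [show (2 : ℝ) ≤ 10 ^ 12 by norm_num]
    · -- R^2 ≤ lam
      rw [hlam]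
      nlinarith [sq_nonneg (R : ℝ)]
    · have : 0 ≤ 100 * (R : ℝ) ^ 3 / β := by positivity
      linarith
    · -- exp_big
      have h1 : 1 + 100 * (R : ℝ) ^ 3 / β ≤ (1 + 100 / β) * (R : ℝ) ^ 3 := by
        have h2 : (1 : ℝ) ≤ (R : ℝ) ^ 3 := hRn 3
        have h3 : (1 + 100 / β) * (R : ℝ) ^ 3 = (R : ℝ) ^ 3 + 100 * (R : ℝ) ^ 3 / β := by
          ring
        rw [h3]
        linarith
      have h2 := hR6.trans (hexp (1 / 10 ^ 6) (by norm_num))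
      rw [show 1 / (10 : ℝ) ^ 6 * lam = lam / 10 ^ 6 by ring] at h2
      calc (10 ^ 6 * (1 + 100 * (R : ℝ) ^ 3 / β) ^ 4) ^ 10
          ≤ (10 ^ 6 * ((1 + 100 / β) * (R : ℝ) ^ 3) ^ 4) ^ 10 := by gcongr
        _ = (10 ^ 6 * (1 + 100 / β) ^ 4) ^ 10 * (R : ℝ) ^ 120 := by
            rw [mul_pow (1 + 100 / β), ← mul_assoc, mul_pow _ ((( (R : ℝ)) ^ 3) ^ 4), ← pow_mul,
              ← pow_mul]
        _ ≤ _ := h2
    · -- C_lo
      intro n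
      have h1 := hC1 n
      have h2 : Real.exp (-(301 / 10000 * lam)) * (R : ℝ) ^ p ≤ C n * (R : ℝ) ^ p := by
        calc Real.exp (-(301 / 10000 * lam)) * (R : ℝ) ^ p
            ≤ Real.exp (-(301 / 10000 * lam)) * Real.exp (1 / 10000 * lam) :=
              mul_le_mul_of_nonneg_left hRp (Real.exp_pos _).le
          _ = Real.exp (-(3 / 100 * lam)) := by rw [← Real.exp_add]; congr 1; ring
          _ ≤ _ := h1
      exact le_of_mul_le_mul_right h2 hRp0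
    · -- C_hi
      intro n
      calc C n ≤ Real.exp (-(3 / 100 * lam)) * (R : ℝ) ^ p := hC2 n
        _ ≤ Real.exp (-(3 / 100 * lam)) * Real.exp (1 / 10000 * lam) :=
            mul_le_mul_of_nonneg_left hRp (Real.exp_pos _).le
        _ = Real.exp (-(299 / 10000 * lam)) := by rw [← Real.exp_add]; congr 1; ring
    · intro n
      exact mul_nonneg hQ0.le (Real.rpow_nonneg (by linarith [hKRn n]) _)
    · -- ℓ_zero
      show 10 ^ 6 * (Q * ((K₀ : ℝ) * R ^ 0) ^ (2 * α) * lam)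
        ≤ β * (((K₀ : ℝ) * R ^ 0) ^ 2 * √((K₀ : ℝ) * R ^ 0))
      rw [pow_zero, mul_one, sq_sqrt_eq hK0]
      have h1 : (K₀ : ℝ) ^ (5 / 2 : ℝ) = (K₀ : ℝ) ^ (5 / 2 - 2 * α) * (K₀ : ℝ) ^ (2 * α) := by
        rw [← Real.rpow_add hK0]; congr 1; ring
      rw [h1]
      have h2 : 0 ≤ (K₀ : ℝ) ^ (2 * α) := Real.rpow_nonneg hK0.le _
      nlinarith [mul_le_mul_of_nonneg_right hkey h2]
    · -- ℓ_succ
      intro n
      show 10 ^ 6 * (Q * ((K₀ : ℝ) * R ^ (n + 1)) ^ (2 * α))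
        ≤ β * (((K₀ : ℝ) * R ^ n) ^ 2 * √((K₀ : ℝ) * R ^ n)) * (9 / 1000) ^ n
      set x : ℝ := (K₀ : ℝ) * R ^ n with hx
      have hx1 : 1 ≤ x := hKRn n
      have hx0 : 0 < x := by linarith
      rw [sq_sqrt_eq hx0]
      have e1 : (K₀ : ℝ) * R ^ (n + 1) = R * x := by rw [hx]; ring
      have h1 : x ^ (5 / 2 : ℝ) = x ^ (5 / 2 - 2 * α) * x ^ (2 * α) := by
        rw [← Real.rpow_add hx0]; congr 1; ring
      have h2 : x ^ (5 / 2 - 2 * α)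
          = (K₀ : ℝ) ^ (5 / 2 - 2 * α) * ((R : ℝ) ^ (5 / 2 - 2 * α)) ^ n := by
        rw [hx, Real.mul_rpow hK0.le (by positivity), ← Real.rpow_natCast (R : ℝ) n,
          ← Real.rpow_natCast ((R : ℝ) ^ (5 / 2 - 2 * α)) n, ← Real.rpow_mul hR0.le,
          ← Real.rpow_mul hR0.le, mul_comm (n : ℝ)]
      have h3 : (1000 / 9 : ℝ) ^ n ≤ ((R : ℝ) ^ (5 / 2 - 2 * α)) ^ n := by gcongr
      have h4 : (1000 / 9 : ℝ) ^ n * (9 / 1000) ^ n = 1 := by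
        rw [← mul_pow]; norm_num
      have h5 : (R : ℝ) ^ (2 * α) ≤ lam := by
        rw [hlame]
        exact Real.rpow_le_rpow_of_exponent_le hR1' (by linarith)
      have h6 : 0 ≤ x ^ (2 * α) := Real.rpow_nonneg hx0.le _
      have h7 : 0 ≤ (K₀ : ℝ) ^ (5 / 2 - 2 * α) := Real.rpow_nonneg hK0.le _
      have h9 : (0 : ℝ) < (9 / 1000) ^ n := by positivity
      rw [e1, Real.mul_rpow hR0.le hx0.le, h1, h2]
      calc 10 ^ 6 * (Q * ((R : ℝ) ^ (2 * α) * x ^ (2 * α)))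
          ≤ 10 ^ 6 * (Q * (lam * x ^ (2 * α))) := by gcongr
        _ = (10 ^ 6 * Q * lam) * x ^ (2 * α) := by ring
        _ ≤ (β * (K₀ : ℝ) ^ (5 / 2 - 2 * α)) * x ^ (2 * α) :=
            mul_le_mul_of_nonneg_right hkey h6
        _ = (β * (K₀ : ℝ) ^ (5 / 2 - 2 * α)) * x ^ (2 * α) *
              ((1000 / 9 : ℝ) ^ n * (9 / 1000) ^ n) := by rw [h4, mul_one]
        _ ≤ (β * (K₀ : ℝ) ^ (5 / 2 - 2 * α)) * x ^ (2 * α) *
              (((R : ℝ) ^ (5 / 2 - 2 * α)) ^ n * (9 / 1000) ^ n) := by gcongr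
        _ = _ := by ring
    · -- ℓ_low
      refine ⟨Q * (K₀ : ℝ) ^ (2 * α), by positivity, fun n => ?_⟩
      show Q * (K₀ : ℝ) ^ (2 * α) * (R : ℝ) ^ (2 * n) ≤ Q * ((K₀ : ℝ) * R ^ n) ^ (2 * α)
      rw [Real.mul_rpow hK0.le (by positivity), mul_assoc]
      have h1 : (R : ℝ) ^ (2 * n) ≤ ((R : ℝ) ^ n) ^ (2 * α) := by
        rw [mul_comm 2 n, pow_mul, ← Real.rpow_natCast ((R : ℝ) ^ n) 2]
        exact Real.rpow_le_rpow_of_exponent_le (hRn n) (by push_cast; linarith)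
      have h2 : 0 ≤ (K₀ : ℝ) ^ (2 * α) := Real.rpow_nonneg hK0.le _
      gcongr

end Pool.Agent.Y434.NE
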