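import Pool.Agent.Y554.NE.Stm
import Pool.Agent.Y434.NE.Core

/-!
# Project NE (helper554), part SUMB

Proved by helper434.
-/

set_option autoImplicit false

namespace Pool.Agent.Y434.NE

open H974 Finset Pool.Agent.Y554.SN Pool.Agent.Y554.NE

theorem q1_le_aux {u v m : ℕ} (hu : 0 < u) (huv : u ≤ v) (hm : 1 ≤ m) :
    ((((1 : ℕ) : ℝ) / u) ^ (5 / 2 : ℝ) * ((u : ℝ) / v) ^ (11 / 6 : ℝ) *
      ((v : ℝ) / m) ^ (2 / 3 : ℝ)) ^ (1 / 2 : ℝ) ≤
    (m : ℝ) ^ (-(1 / 3) : ℝ) * ((u : ℝ) ^ (-(11 / 24) : ℝ) * (v : ℝ) ^ (-(11 / 24) : ℝ)) := by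
  have hu0 : (0 : ℝ) < u := by exact_mod_cast hu
  have huv' : (u : ℝ) ≤ v := by exact_mod_cast huv
  have hv0 : (0 : ℝ) < v := by linarith
  have hm0 : (0 : ℝ) < m := by exact_mod_cast hm
  have h1 : (0 : ℝ) < ((1 : ℕ) : ℝ) := by norm_num
  rw [Real.rpow_def_of_pos (div_pos h1 hu0), Real.rpow_def_of_pos (div_pos hu0 hv0),
    Real.rpow_def_of_pos (div_pos hv0 hm0), Real.rpow_def_of_pos hm0,
    Real.rpow_def_of_pos hu0, Real.rpow_def_of_pos hv0, ← Real.exp_add, ← Real.exp_add,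
    ← Real.exp_mul, ← Real.exp_add, ← Real.exp_add, Real.exp_le_exp,
    Real.log_div h1.ne' hu0.ne', Real.log_div hu0.ne' hv0.ne', Real.log_div hv0.ne' hm0.ne',
    Nat.cast_one, Real.log_one]
  have := Real.log_le_log hu0 huv'
  nlinarith

theorem psi_le {n m : ℕ} (hm : 1 ≤ m) (hmn : m ≤ n) (e : Edg) :
    psi n e m ≤ (m : ℝ) ^ (-(1 / 3) : ℝ) * ((Y n m e.1 : ℝ) ^ (-(11 / 24) : ℝ) *
      (Y n m e.2.1 : ℝ) ^ (-(11 / 24) : ℝ)) := by
  have hcap : cap n m = m := by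
    unfold cap
    omega
  unfold psi q1 qc
  rw [hcap]
  have h1 : (pos e).1 = e.1 := rfl
  have h2 : (pos e).2 = e.2.1 := rfl
  rcases le_total |e.1| |e.2.1| with h | h
  · have e1 : B1 n (pos e) 1 m = Y n m e.2.1 := by
      unfold B1 Pool.Agent.Y554.SN.b1 Y
      rw [h1, h2, max_eq_right h]
    have e2 : B2 n (pos e) 1 m = Y n m e.1 := by
      unfold B2 Pool.Agent.Y554.SN.b2 Y
      rw [h1, h2, min_eq_left h]
    rw [e1, e2, mul_comm ((Y n m e.1 : ℝ) ^ (-(11 / 24) : ℝ))]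
    refine q1_le_aux (Y_pos hm _) ?_ hm
    unfold Y
    omega
  · have e1 : B1 n (pos e) 1 m = Y n m e.1 := by
      unfold B1 Pool.Agent.Y554.SN.b1 Y
      rw [h1, h2, max_eq_left h]
    have e2 : B2 n (pos e) 1 m = Y n m e.2.1 := by
      unfold B2 Pool.Agent.Y554.SN.b2 Y
      rw [h1, h2, min_eq_right h]
    rw [e1, e2]
    refine q1_le_aux (Y_pos hm _) ?_ hm
    unfold Y
    omega

theorem sumb : S_SUMB := by
  refine ⟨162, by norm_num, ?_⟩
  intro n m hm hmn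
  refine le_trans ?_ (square hm hmn)
  refine le_trans (sum_le_sum fun e _ => psi_le hm hmn e) ?_
  apply sum_le_sum_of_subset_of_nonneg
  · intro e he
    exact (mem_filter.1 he).1
  · intro e _ _
    positivity

end Pool.Agent.Y434.NE
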